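import Mathlib
import Pool.Agent.L7h85.RL.Stm

set_option autoImplicit false

/-!
# The commutative semigroup of the classes of equivalent objects of a system
-/

namespace Pool.Agent.L7h32.RL

open Finset Pool.Agent.L7h85.RL

universe u v

variable {Ob : Type u} (𝒮 : Sys Ob)

/-! ### The quotient -/

theorem ten_congr_left {A A' : Ob} (h : 𝒮.Eqv A A') (B : Ob) :
    𝒮.Eqv (𝒮.ten A B) (𝒮.ten A' B) := by
  intro C
  rw [𝒮.adj, 𝒮.adj, h]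

theorem ten_congr {A A' B B' : Ob} (h : 𝒮.Eqv A A') (h' : 𝒮.Eqv B B') :
    𝒮.Eqv (𝒮.ten A B) (𝒮.ten A' B') := by
  intro C
  rw [ten_congr_left 𝒮 h B C, 𝒮.comm, ten_congr_left 𝒮 h' A' C, 𝒮.comm]

theorem dual_congr {A A' : Ob} (h : 𝒮.Eqv A A') : 𝒮.Eqv (𝒮.dual A) (𝒮.dual A') := by
  intro C
  have key : ∀ X, 𝒮.h (𝒮.dual X) C = 𝒮.h X (𝒮.dual C) := by
    intro X
    rw [← 𝒮.dual_h X (𝒮.dual C), 𝒮.h_symm (𝒮.dual X) (𝒮.dual (𝒮.dual C)), 𝒮.dual_dual,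
      𝒮.h_symm C]
  rw [key, key, h]

/-- The equivalence of objects. -/
def sto : Setoid Ob where
  r := 𝒮.Eqv
  iseqv := ⟨fun _ _ => rfl, fun h C => (h C).symm, fun h h' C => (h C).trans (h' C)⟩

/-- The classes of equivalent objects. -/
def Qt : Type u := Quotient (sto 𝒮)

/-- The class of an object. -/
def cl (A : Ob) : Qt 𝒮 := Quotient.mk (sto 𝒮) A

variable {𝒮}

theorem cl_eq {A B : Ob} (h : 𝒮.Eqv A B) : cl 𝒮 A = cl 𝒮 B := Quotient.sound h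

instance : Mul (Qt 𝒮) :=
  ⟨Quotient.map₂ 𝒮.ten (fun _ _ h _ _ h' => ten_congr 𝒮 h h')⟩

/-- The dual. -/
def sr : Qt 𝒮 → Qt 𝒮 := Quotient.map 𝒮.dual (fun _ _ h => dual_congr 𝒮 h)

/-- The number of homomorphisms. -/
def hh : Qt 𝒮 → Qt 𝒮 → ℕ :=
  Quotient.lift₂ 𝒮.h (fun A B A' B' h h' => by
    rw [show 𝒮.h A B = 𝒮.h A' B from h B, 𝒮.h_symm A' B, show 𝒮.h B A' = 𝒮.h B' A' from h' A',
      𝒮.h_symm B' A'])

theorem cl_ten (A B : Ob) : cl 𝒮 (𝒮.ten A B) = cl 𝒮 A * cl 𝒮 B := rfl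

theorem cl_dual (A : Ob) : cl 𝒮 (𝒮.dual A) = sr (cl 𝒮 A) := rfl

theorem hh_cl (A B : Ob) : hh (cl 𝒮 A) (cl 𝒮 B) = 𝒮.h A B := rfl

instance : CommSemigroup (Qt 𝒮) where
  mul_assoc := by
    rintro ⟨A⟩ ⟨B⟩ ⟨C⟩
    exact cl_eq (fun D => 𝒮.assoc A B C D)
  mul_comm := by
    rintro ⟨A⟩ ⟨B⟩
    exact cl_eq (fun D => 𝒮.comm A B D)

theorem hh_symm (a b : Qt 𝒮) : hh a b = hh b a := by
  induction a using Quotient.inductionOn with | _ A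
  induction b using Quotient.inductionOn with | _ B
  exact 𝒮.h_symm A B

theorem hh_adj (a b c : Qt 𝒮) : hh (a * b) c = hh a (c * sr b) := by
  induction a using Quotient.inductionOn with | _ A
  induction b using Quotient.inductionOn with | _ B
  induction c using Quotient.inductionOn with | _ C
  exact 𝒮.adj A B C

theorem sr_sr (a : Qt 𝒮) : sr (sr a) = a := by
  induction a using Quotient.inductionOn with | _ A
  exact cl_eq (fun B => 𝒮.dual_dual A B)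

theorem sr_mul (a b : Qt 𝒮) : sr (a * b) = sr a * sr b := by
  induction a using Quotient.inductionOn with | _ A
  induction b using Quotient.inductionOn with | _ B
  exact cl_eq (fun C => 𝒮.dual_ten A B C)

theorem hh_sr (a b : Qt 𝒮) : hh (sr a) (sr b) = hh a b := by
  induction a using Quotient.inductionOn with | _ A
  induction b using Quotient.inductionOn with | _ B
  exact 𝒮.dual_h A B

theorem hh_adj' (a b c : Qt 𝒮) : hh a (b * c) = hh (a * sr c) b := by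
  rw [hh_adj, sr_sr]

theorem cl_ext {a b : Qt 𝒮} (h : ∀ c, hh a c = hh b c) : a = b := by
  induction a using Quotient.inductionOn with | _ A
  induction b using Quotient.inductionOn with | _ B
  exact cl_eq (fun C => h (cl 𝒮 C))

/-! ### Powers -/

theorem cl_pw (V : Ob) (n : ℕ) :
    (cl 𝒮 (𝒮.pw V n) : WithOne (Qt 𝒮)) = (cl 𝒮 V : WithOne (Qt 𝒮)) ^ (n + 1) := by
  induction n with
  | zero => rw [zero_add, pow_one]; rfl
  | succ n ih =>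
    show (cl 𝒮 (𝒮.ten V (𝒮.pw V n)) : WithOne (Qt 𝒮)) = _
    rw [cl_ten, WithOne.coe_mul, ih, ← pow_succ']

theorem cl_srpw (V : Ob) (n : ℕ) :
    (sr (cl 𝒮 (𝒮.pw V n)) : WithOne (Qt 𝒮)) = (sr (cl 𝒮 V) : WithOne (Qt 𝒮)) ^ (n + 1) := by
  induction n with
  | zero => rw [zero_add, pow_one]; rfl
  | succ n ih =>
    show (sr (cl 𝒮 (𝒮.ten V (𝒮.pw V n))) : WithOne (Qt 𝒮)) = _
    rw [cl_ten, sr_mul, WithOne.coe_mul, ih, ← pow_succ']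

theorem cl_it (O Y : Ob) (n : ℕ) :
    (cl 𝒮 (𝒮.it O Y n) : WithOne (Qt 𝒮)) =
      (cl 𝒮 O : WithOne (Qt 𝒮)) ^ n * (cl 𝒮 Y : WithOne (Qt 𝒮)) := by
  induction n with
  | zero => rw [pow_zero, one_mul]; rfl
  | succ n ih =>
    show (cl 𝒮 (𝒮.ten O (𝒮.it O Y n)) : WithOne (Qt 𝒮)) = _
    rw [cl_ten, WithOne.coe_mul, ih, ← mul_assoc, ← pow_succ']

theorem cl_wq (V : Ob) (n : ℕ) :
    (cl 𝒮 (𝒮.wq V n) : WithOne (Qt 𝒮)) =
      (cl 𝒮 V : WithOne (Qt 𝒮)) ^ (n + 1) * (sr (cl 𝒮 V) : WithOne (Qt 𝒮)) ^ (n + 1) := by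
  show (cl 𝒮 (𝒮.ten (𝒮.pw V n) (𝒮.dual (𝒮.pw V n))) : WithOne (Qt 𝒮)) = _
  rw [cl_ten, WithOne.coe_mul, cl_pw, cl_dual, cl_srpw]

theorem dim_pw (V : Ob) (n : ℕ) : 𝒮.dim (𝒮.pw V n) = 𝒮.dim V ^ (n + 1) := by
  induction n with
  | zero => rw [zero_add, pow_one]; rfl
  | succ n ih =>
    show 𝒮.dim (𝒮.ten V (𝒮.pw V n)) = _
    rw [𝒮.dim_ten, ih, ← pow_succ']

theorem dim_wq (V : Ob) (n : ℕ) : 𝒮.dim (𝒮.wq V n) = 𝒮.dim V ^ (2 * (n + 1)) := by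
  show 𝒮.dim (𝒮.ten (𝒮.pw V n) (𝒮.dual (𝒮.pw V n))) = _
  rw [𝒮.dim_ten, 𝒮.dim_dual, dim_pw, ← pow_add]
  congr 1
  ring

/-! ### Constituents -/

theorem Dec.self {A : Ob} (D : Dec 𝒮.h 𝒮.dim A) (c : D.C) : 𝒮.h (D.S c) A = D.m c := by
  rw [𝒮.h_symm, D.par]
  rw [Finset.sum_eq_single c]
  · rw [D.ortho, if_pos rfl, mul_one]
  · intro c' _ hc
    rw [D.ortho, if_neg hc, mul_zero]
  · intro h
    exact absurd (Finset.mem_univ _) h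

theorem Dec.simple {A : Ob} (D : Dec 𝒮.h 𝒮.dim A) (c : D.C) : 𝒮.h (D.S c) (D.S c) = 1 := by
  rw [D.ortho, if_pos rfl]

/-- `B` has all simple constituents of `A`. -/
def Sub (a b : Qt 𝒮) : Prop := ∀ c, hh a c ≠ 0 → hh b c ≠ 0

theorem Sub.refl (a : Qt 𝒮) : Sub a a := fun _ h => h

theorem Sub.trans {a b c : Qt 𝒮} (h : Sub a b) (h' : Sub b c) : Sub a c := fun d hd =>
  h' d (h d hd)

theorem Sub.mul_right {a b : Qt 𝒮} (h : Sub a b) (c : Qt 𝒮) : Sub (a * c) (b * c) := by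
  intro d hd
  rw [hh_adj] at hd ⊢
  exact h _ hd

theorem Sub.mul_left {a b : Qt 𝒮} (h : Sub a b) (c : Qt 𝒮) : Sub (c * a) (c * b) := by
  rw [mul_comm c a, mul_comm c b]
  exact h.mul_right c

theorem Sub.mul {a b c d : Qt 𝒮} (h : Sub a b) (h' : Sub c d) : Sub (a * c) (b * d) :=
  (h.mul_right c).trans (h'.mul_left b)

/-- A common simple constituent. -/
theorem exists_simple {A C : Ob} (h : 𝒮.h A C ≠ 0) :
    ∃ S, 𝒮.h S S = 1 ∧ 𝒮.h S A ≠ 0 ∧ 𝒮.h S C ≠ 0 := by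
  obtain ⟨D⟩ := 𝒮.dec A
  rw [D.par] at h
  obtain ⟨c, -, hc⟩ := Finset.exists_ne_zero_of_sum_ne_zero h
  refine ⟨D.S c, Dec.simple D c, ?_, ?_⟩
  · rw [Dec.self]
    exact (D.m_pos c).ne'
  · exact right_ne_zero_of_mul hc

theorem sub_of {A B : Ob} (h : ∀ S, 𝒮.h S S = 1 → 𝒮.h S A ≠ 0 → 𝒮.h S B ≠ 0) :
    Sub (cl 𝒮 A) (cl 𝒮 B) := by
  intro c hc
  induction c using Quotient.inductionOn with | _ C
  change 𝒮.h A C ≠ 0 at hc
  change 𝒮.h B C ≠ 0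
  obtain ⟨D⟩ := 𝒮.dec A
  rw [D.par] at hc
  obtain ⟨c, -, hc⟩ := Finset.exists_ne_zero_of_sum_ne_zero hc
  have h1 := h (D.S c) (Dec.simple D c) (by
    rw [Dec.self]
    exact (D.m_pos c).ne')
  have h2 := right_ne_zero_of_mul hc
  have h3 := D.bessel B C
  have h4 : 𝒮.h (D.S c) B * 𝒮.h (D.S c) C ≤ ∑ c, 𝒮.h (D.S c) B * 𝒮.h (D.S c) C :=
    Finset.single_le_sum (f := fun c => 𝒮.h (D.S c) B * 𝒮.h (D.S c) C)
      (fun _ _ => Nat.zero_le _) (Finset.mem_univ c)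
  have h5 := Nat.pos_of_ne_zero (mul_ne_zero h1 h2)
  omega

theorem dim_pos_of {A C : Ob} (h : 𝒮.h A C ≠ 0) : 0 < 𝒮.dim A := by
  obtain ⟨D⟩ := 𝒮.dec A
  rw [D.par] at h
  obtain ⟨c, -, hc⟩ := Finset.exists_ne_zero_of_sum_ne_zero h
  rw [D.dim_eq]
  refine lt_of_lt_of_le (Nat.mul_pos (D.m_pos c) (D.dim_pos c)) ?_
  exact Finset.single_le_sum (f := fun c => D.m c * 𝒮.dim (D.S c))
    (fun _ _ => Nat.zero_le _) (Finset.mem_univ c)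

theorem h_self_pos {A : Ob} (h : 0 < 𝒮.dim A) : 𝒮.h A A ≠ 0 := by
  obtain ⟨D⟩ := 𝒮.dec A
  have h1 : ∑ c, D.m c * 𝒮.dim (D.S c) ≠ 0 := by
    rw [← D.dim_eq]
    exact h.ne'
  obtain ⟨c, -, hc⟩ := Finset.exists_ne_zero_of_sum_ne_zero h1
  rw [D.par]
  have h2 : D.m c * 𝒮.h (D.S c) A ≤ ∑ c, D.m c * 𝒮.h (D.S c) A :=
    Finset.single_le_sum (f := fun c => D.m c * 𝒮.h (D.S c) A)
      (fun _ _ => Nat.zero_le _) (Finset.mem_univ c)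
  rw [Dec.self] at h2
  have h3 := Nat.mul_pos (D.m_pos c) (D.m_pos c)
  omega

/-- The inequality of `tri`. -/
theorem sub_tri (a : Qt 𝒮) {C : Ob} (hC : 0 < 𝒮.dim C) :
    Sub a (a * (cl 𝒮 C * sr (cl 𝒮 C))) := by
  intro b hb
  induction a using Quotient.inductionOn with | _ A
  induction b using Quotient.inductionOn with | _ B
  have h1 := 𝒮.tri A B C hC
  have h2 : hh (cl 𝒮 A * (cl 𝒮 C * sr (cl 𝒮 C))) (cl 𝒮 B) = 𝒮.h (𝒮.ten A C) (𝒮.ten B C) := by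
    rw [← mul_assoc, hh_adj, sr_sr]
    rfl
  change 𝒮.h A B ≠ 0 at hb
  change hh (cl 𝒮 A * (cl 𝒮 C * sr (cl 𝒮 C))) (cl 𝒮 B) ≠ 0
  rw [h2]
  omega

/-! ### The part of an object in a stable class -/

theorem no_hom {T : Ob → Prop} (hT : 𝒮.IsStable T) {A O R X : Ob} (h : 𝒮.IsSplit T A O R)
    (hX : T X) : 𝒮.h R X = 0 := by
  by_contra hne
  rw [𝒮.h_symm] at hne
  obtain ⟨S, h1, h2, h3⟩ := exists_simple hne
  exact h3 (h.no S h1 (hT.sub hX h1 h2))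

theorem hom_part {T : Ob → Prop} (hT : 𝒮.IsStable T) {A O R X : Ob} (h : 𝒮.IsSplit T A O R)
    (hX : T X) : 𝒮.h O X = 𝒮.h A X := by
  rw [h.split, no_hom hT h hX, add_zero]

end Pool.Agent.L7h32.RL
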