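import Mathlib
import Pool.Agent.L7h32.RL.Bas

set_option autoImplicit false

/-!
# The part GEN
-/

namespace Pool.Agent.L7h32.RL

open Finset Pool.Agent.L7h85.RL

universe u v

/-! ### Relations in a commutative group -/

section

variable {Λ : Type} [Fintype Λ]

open Classical in
theorem prod_count {Γ : Type v} [CommMonoid Γ] (g : Λ → Γ) (w : Multiset Λ) :
    (w.map g).prod = ∏ a, g a ^ w.count a := by
  rw [Finset.prod_multiset_map_count]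
  apply Finset.prod_subset (Finset.subset_univ _)
  intro a _ ha
  rw [Multiset.mem_toFinset] at ha
  rw [Multiset.count_eq_zero.2 ha, pow_zero]

/-- Dickson's lemma for the relations in a commutative group. -/
theorem blocks {Γ : Type v} [CommGroup Γ] (g : Λ → Γ) :
    ∃ κ : ℕ, ∀ w : Multiset Λ, w ≠ 0 → (w.map g).prod = 1 →
      ∃ w₁ w₂ : Multiset Λ, w = w₁ + w₂ ∧ w₁ ≠ 0 ∧ (w₁.map g).prod = 1 ∧
        Multiset.card w₁ ≤ κ + 1 := by
  classical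
  let M : Set (Λ → ℕ) := {x | x ≠ 0 ∧ ∏ a, g a ^ x a = 1}
  have hpwo : M.IsPWO := Set.isPWO_of_wellQuasiOrderedLE M
  have hfin : {x | Minimal (· ∈ M) x}.Finite :=
    (setOfPred_minimal_antichain _).finite_of_partiallyWellOrderedOn
      (hpwo.mono (setOfPred_minimal_subset _))
  refine ⟨hfin.toFinset.sup fun x => ∑ a, x a, ?_⟩
  intro w hw hg
  have hx : (fun a => w.count a) ∈ M := by
    refine ⟨?_, by rw [← prod_count]; exact hg⟩
    intro h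
    obtain ⟨a, ha⟩ := Multiset.exists_mem_of_ne_zero hw
    have := congrFun h a
    simp only [Pi.zero_apply] at this
    exact Multiset.count_ne_zero.2 ha this
  obtain ⟨m, hm, hmin⟩ := hpwo.exists_le_minimal hx
  let w₁ : Multiset Λ := ∑ a, Multiset.replicate (m a) a
  have hc : ∀ a, w₁.count a = m a := by
    intro a
    rw [Multiset.count_sum']
    simp only [Multiset.count_replicate]
    rw [Finset.sum_eq_single a]
    · simp
    · intro b _ hb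
      simp [hb]
    · intro h
      exact absurd (Finset.mem_univ _) h
  have hle : w₁ ≤ w := by
    rw [Multiset.le_iff_count]
    intro a
    rw [hc]
    exact hm a
  refine ⟨w₁, w - w₁, (add_tsub_cancel_of_le hle).symm, ?_, ?_, ?_⟩
  · intro h
    apply hmin.prop.1
    funext a
    rw [← hc, h, Multiset.count_zero, Pi.zero_apply]
  · rw [prod_count]
    simp only [hc]
    exact hmin.prop.2
  · have h1 : Multiset.card w₁ = ∑ a, m a := by
      rw [Multiset.card_sum]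
      simp
    rw [h1]
    refine le_trans ?_ (Nat.le_succ _)
    exact Finset.le_sup (f := fun x : Λ → ℕ => ∑ a, x a) (hfin.mem_toFinset.2 hmin)

end

variable {Ob : Type u} {𝒮 : Sys Ob}

theorem Sub.sr {a b : Qt 𝒮} (h : Sub a b) : Sub (RL.sr a) (RL.sr b) := by
  intro c hc
  rw [← hh_sr, sr_sr] at hc ⊢
  exact h _ hc

theorem Sub.pw {A B : Ob} (h : Sub (cl 𝒮 A) (cl 𝒮 B)) (n : ℕ) :
    Sub (cl 𝒮 (𝒮.pw A n)) (cl 𝒮 (𝒮.pw B n)) := by
  induction n with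
  | zero => exact h
  | succ n ih => exact Sub.mul h ih

theorem wq_succ (V : Ob) (n : ℕ) :
    cl 𝒮 (𝒮.wq V n) * (cl 𝒮 V * sr (cl 𝒮 V)) = cl 𝒮 (𝒮.wq V (n + 1)) := by
  apply WithOne.coe_injective
  rw [WithOne.coe_mul, WithOne.coe_mul, cl_wq, cl_wq, pow_succ _ (n + 1), pow_succ _ (n + 1)]
  ac_rfl

theorem wq_mono {V : Ob} (hV : 0 < 𝒮.dim V) {n m : ℕ} (h : n ≤ m) :
    Sub (cl 𝒮 (𝒮.wq V n)) (cl 𝒮 (𝒮.wq V m)) := by
  induction m, h using Nat.le_induction with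
  | base => exact Sub.refl _
  | succ m _ ih =>
    refine ih.trans ?_
    rw [← wq_succ]
    exact sub_tri _ hV

theorem sr_wq (V : Ob) (n : ℕ) : sr (cl 𝒮 (𝒮.wq V n)) = cl 𝒮 (𝒮.wq V n) := by
  change sr (cl 𝒮 (𝒮.pw V n) * sr (cl 𝒮 (𝒮.pw V n))) = cl 𝒮 (𝒮.pw V n) * sr (cl 𝒮 (𝒮.pw V n))
  rw [sr_mul, sr_sr, mul_comm]

theorem wq_mul (V : Ob) (n : ℕ) :
    cl 𝒮 (𝒮.wq V n) * cl 𝒮 (𝒮.wq V n) = cl 𝒮 (𝒮.wq V (2 * n + 1)) := by
  apply WithOne.coe_injective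
  rw [WithOne.coe_mul, cl_wq, cl_wq]
  have h1 : 2 * n + 1 + 1 = (n + 1) + (n + 1) := by ring
  rw [h1, pow_add _ (n + 1) (n + 1), pow_add _ (n + 1) (n + 1)]
  ac_rfl

theorem pw_wq (V : Ob) (n : ℕ) :
    cl 𝒮 (𝒮.pw (𝒮.ten V (𝒮.dual V)) n) = cl 𝒮 (𝒮.wq V n) := by
  apply WithOne.coe_injective
  rw [cl_pw, cl_wq, cl_ten, cl_dual, WithOne.coe_mul, mul_pow]

theorem pw_add (O : Ob) (m : ℕ) :
    cl 𝒮 (𝒮.pw O (2 * m + 1)) = cl 𝒮 (𝒮.pw O m) * cl 𝒮 (𝒮.pw O m) := by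
  apply WithOne.coe_injective
  rw [WithOne.coe_mul, cl_pw, cl_pw, ← pow_add]
  congr 1
  ring

/-! ### The part in a stable class -/

section

variable {T : Ob → Prop} (hT : 𝒮.IsStable T) {V : Ob} {O R : ℕ → Ob}
  (hs : ∀ n, 𝒮.IsSplit T (𝒮.wq V n) (O n) (R n))

include hT hs

theorem sub_part {X : Ob} (hX : T X) {n : ℕ} (h : Sub (cl 𝒮 X) (cl 𝒮 (𝒮.wq V n))) :
    Sub (cl 𝒮 X) (cl 𝒮 (O n)) := by
  apply sub_of
  intro S h1 h2
  have hTS := hT.sub hX h1 h2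
  rw [𝒮.h_symm, hom_part hT (hs n) hTS]
  rw [𝒮.h_symm] at h2
  exact h (cl 𝒮 S) h2

omit hT in
theorem part_sub (n : ℕ) : Sub (cl 𝒮 (O n)) (cl 𝒮 (𝒮.wq V n)) := by
  intro c hc
  induction c using Quotient.inductionOn with | _ C
  change 𝒮.h (O n) C ≠ 0 at hc
  change 𝒮.h (𝒮.wq V n) C ≠ 0
  rw [(hs n).split]
  omega

theorem part_sr (n : ℕ) : Sub (cl 𝒮 (O n)) (sr (cl 𝒮 (O n))) := by
  rw [← cl_dual]
  apply sub_of
  intro S h1 h2
  have hTS := hT.sub (hs n).mem h1 h2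
  have e1 : 𝒮.h S (𝒮.dual (O n)) = 𝒮.h (O n) (𝒮.dual S) := by
    change hh (cl 𝒮 S) (sr (cl 𝒮 (O n))) = hh (cl 𝒮 (O n)) (sr (cl 𝒮 S))
    rw [hh_symm, ← hh_sr, sr_sr]
  rw [e1, hom_part hT (hs n) (hT.dual hTS)]
  have e2 : 𝒮.h (𝒮.wq V n) (𝒮.dual S) = 𝒮.h (𝒮.wq V n) S := by
    change hh (cl 𝒮 (𝒮.wq V n)) (sr (cl 𝒮 S)) = hh (cl 𝒮 (𝒮.wq V n)) (cl 𝒮 S)
    rw [← hh_sr, sr_sr, sr_wq]
  rw [e2, ← hom_part hT (hs n) hTS, 𝒮.h_symm]
  exact h2

end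

/-! ### Words -/

section

variable {Λ : Type} [Fintype Λ] {U : Λ → Ob} {W : Ob}

theorem cl_lt {Λ : Type} (U : Λ → Ob) (a : Λ) (l : List Λ) :
    (cl 𝒮 (𝒮.lt U a l) : WithOne (Qt 𝒮)) =
      ((a :: l).map fun b => (cl 𝒮 (U b) : WithOne (Qt 𝒮))).prod := by
  induction l generalizing a with
  | nil => simp [Sys.lt]
  | cons b l ih =>
    change (cl 𝒮 (𝒮.ten (U a) (𝒮.lt U b l)) : WithOne (Qt 𝒮)) = _
    rw [cl_ten, WithOne.coe_mul, ih, List.map_cons, List.map_cons, List.prod_cons,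
      List.prod_cons, List.map_cons, List.prod_cons]

variable (hW : ∀ C, 𝒮.h W C = ∑ a, 𝒮.h (U a) C)

include hW

theorem hh_W (c : Qt 𝒮) : hh (cl 𝒮 W) c = ∑ a, hh (cl 𝒮 (U a)) c := by
  induction c using Quotient.inductionOn with | _ C
  exact hW C

theorem U_sub (a : Λ) : Sub (cl 𝒮 (U a)) (cl 𝒮 W) := by
  intro c hc
  rw [hh_W hW]
  have h1 : hh (cl 𝒮 (U a)) c ≤ ∑ a, hh (cl 𝒮 (U a)) c :=
    Finset.single_le_sum (f := fun a => hh (cl 𝒮 (U a)) c) (fun _ _ => Nat.zero_le _)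
      (Finset.mem_univ a)
  omega

theorem lt_sub (a : Λ) (l : List Λ) : Sub (cl 𝒮 (𝒮.lt U a l)) (cl 𝒮 (𝒮.pw W l.length)) := by
  induction l generalizing a with
  | nil => exact U_sub hW a
  | cons b l ih => exact Sub.mul (U_sub hW a) (ih b)

theorem exists_word (N : ℕ) (c : Qt 𝒮) (h : hh (cl 𝒮 (𝒮.pw W N)) c ≠ 0) :
    ∃ (a : Λ) (l : List Λ), hh (cl 𝒮 (𝒮.lt U a l)) c ≠ 0 := by
  induction N generalizing c with
  | zero =>
    change hh (cl 𝒮 W) c ≠ 0 at h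
    rw [hh_W hW] at h
    obtain ⟨a, -, ha⟩ := Finset.exists_ne_zero_of_sum_ne_zero h
    exact ⟨a, [], ha⟩
  | succ N ih =>
    change hh (cl 𝒮 W * cl 𝒮 (𝒮.pw W N)) c ≠ 0 at h
    rw [hh_adj, hh_W hW] at h
    obtain ⟨a, -, ha⟩ := Finset.exists_ne_zero_of_sum_ne_zero h
    rw [← hh_adj, mul_comm, hh_adj] at ha
    obtain ⟨b, l, hb⟩ := ih _ ha
    refine ⟨a, b :: l, ?_⟩
    change hh (cl 𝒮 (U a) * cl 𝒮 (𝒮.lt U b l)) c ≠ 0
    rw [mul_comm, hh_adj]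
    exact hb

end

theorem exists_list {Λ : Type} {w : Multiset Λ} (h : w ≠ 0) :
    ∃ (a : Λ) (l : List Λ), w = ((a :: l : List Λ) : Multiset Λ) := by
  induction w using Quotient.inductionOn with | _ l
  cases l with
  | nil => exact absurd rfl h
  | cons a l => exact ⟨a, l, rfl⟩

theorem s_GEN : S_GEN.{u, v} := by
  intro Ob 𝒮 T hT V O R hV hs Λ _ U Γ _ g hU
  obtain ⟨κ, hκ⟩ := blocks g
  set W := 𝒮.ten V (𝒮.dual V) with hWdef
  set o := cl 𝒮 (O κ) with ho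
  -- short words
  have hshort : ∀ (a : Λ) (l : List Λ), ((a :: l).map g).prod = 1 → (a :: l).length ≤ κ + 1 →
      Sub (cl 𝒮 (𝒮.lt U a l)) o := by
    intro a l h1 h2
    apply sub_part hT hs (hU.mem a l h1)
    refine (lt_sub hU.sum a l).trans ?_
    rw [hWdef, pw_wq]
    apply wq_mono hV
    rw [List.length_cons] at h2
    omega
  -- all words
  have hword : ∀ (n : ℕ) (w : Multiset Λ), Multiset.card w ≤ n → w ≠ 0 → (w.map g).prod = 1 →
      ∃ k, ∀ x : Qt 𝒮, (x : WithOne (Qt 𝒮)) =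
        (w.map fun b => (cl 𝒮 (U b) : WithOne (Qt 𝒮))).prod → Sub x (cl 𝒮 (𝒮.pw (O κ) k)) := by
    intro n
    induction n with
    | zero =>
      intro w h1 h2
      exact absurd (Multiset.card_eq_zero.1 (Nat.le_zero.1 h1)) h2
    | succ n ih =>
      intro w h1 h2 h3
      obtain ⟨w₁, w₂, rfl, h4, h5, h6⟩ := hκ w h2 h3
      obtain ⟨a, l, rfl⟩ := exists_list h4
      have h7 : Sub (cl 𝒮 (𝒮.lt U a l)) o := by
        apply hshort a l _ (by simpa using h6)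
        rw [← h5, Multiset.map_coe, Multiset.prod_coe]
      have e1 : (cl 𝒮 (𝒮.lt U a l) : WithOne (Qt 𝒮)) = (Multiset.map
          (fun b => (cl 𝒮 (U b) : WithOne (Qt 𝒮))) ((a :: l : List Λ) : Multiset Λ)).prod := by
        rw [Multiset.map_coe, Multiset.prod_coe, cl_lt]
      by_cases h8 : w₂ = 0
      · refine ⟨0, fun x hx => ?_⟩
        have : x = cl 𝒮 (𝒮.lt U a l) := by
          apply WithOne.coe_injective
          rw [hx, e1, h8, add_zero]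
        rw [this]
        exact h7
      · rw [Multiset.map_add, Multiset.prod_add, h5, one_mul] at h3
        have h9 : Multiset.card w₂ ≤ n := by
          rw [Multiset.card_add] at h1
          have : Multiset.card ((a :: l : List Λ) : Multiset Λ) = l.length + 1 := by simp
          omega
        obtain ⟨k, hk⟩ := ih w₂ h9 h8 h3
        obtain ⟨b, l₂, hl₂⟩ := exists_list h8
        have e2 : (cl 𝒮 (𝒮.lt U b l₂) : WithOne (Qt 𝒮)) = (Multiset.map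
            (fun b => (cl 𝒮 (U b) : WithOne (Qt 𝒮))) w₂).prod := by
          rw [hl₂, Multiset.map_coe, Multiset.prod_coe, cl_lt]
        refine ⟨k + 1, fun x hx => ?_⟩
        have : x = cl 𝒮 (𝒮.lt U a l) * cl 𝒮 (𝒮.lt U b l₂) := by
          apply WithOne.coe_injective
          rw [hx, WithOne.coe_mul, e1, e2, Multiset.map_add, Multiset.prod_add]
        rw [this]
        exact Sub.mul h7 (hk _ e2)
  refine ⟨2 * κ + 1, ?_⟩
  intro N S h1 hTS h2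
  have h3 : hh (cl 𝒮 (𝒮.pw W N)) (cl 𝒮 S) ≠ 0 := by
    rw [hWdef, pw_wq]
    change 𝒮.h (𝒮.wq V N) S ≠ 0
    rw [𝒮.h_symm]
    exact h2
  obtain ⟨a, l, h4⟩ := exists_word hU.sum N _ h3
  have h5 : ((a :: l).map g).prod = 1 := by
    by_contra hne
    apply h4
    rw [hh_symm]
    exact hU.no a l hne S h1 hTS
  obtain ⟨k, hk⟩ := hword _ ((a :: l : List Λ) : Multiset Λ) le_rfl (by simp) (by
    rw [Multiset.map_coe, Multiset.prod_coe]
    exact h5)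
  have h6 : hh (cl 𝒮 (𝒮.pw (O κ) k)) (cl 𝒮 S) ≠ 0 := hk (cl 𝒮 (𝒮.lt U a l)) (by
    rw [Multiset.map_coe, Multiset.prod_coe, cl_lt]) _ h4
  have hdim : 0 < 𝒮.dim (O κ) := by
    have := dim_pos_of (A := 𝒮.pw (O κ) k) (C := S) h6
    rw [dim_pw] at this
    exact Nat.pos_of_ne_zero (fun h => by rw [h] at this; simp at this)
  -- passing to `O (2 κ + 1)`
  have h7 : Sub o (cl 𝒮 (O (2 * κ + 1))) :=
    sub_part hT hs (hs κ).mem ((part_sub hs κ).trans (wq_mono hV (by omega)))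
  have h8 : Sub (o * sr o) (cl 𝒮 (O (2 * κ + 1))) := by
    apply sub_part hT hs (X := 𝒮.ten (O κ) (𝒮.dual (O κ)))
      (hT.ten (hs κ).mem (hT.dual (hs κ).mem))
    have h9 := part_sub hs κ
    have h10 := h9.sr
    rw [sr_wq] at h10
    rw [← wq_mul]
    exact Sub.mul h9 h10
  have h9 : Sub (cl 𝒮 (𝒮.pw (O κ) k)) (cl 𝒮 (𝒮.pw (O (2 * κ + 1)) k)) := Sub.pw h7 k
  have h10 : Sub (cl 𝒮 (𝒮.pw (O κ) k)) (cl 𝒮 (𝒮.pw (O (2 * κ + 1)) (k + 1))) := by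
    have e1 : cl 𝒮 (𝒮.pw (O (2 * κ + 1)) (k + 1)) =
        cl 𝒮 (𝒮.pw (O (2 * κ + 1)) k) * cl 𝒮 (O (2 * κ + 1)) := by
      change cl 𝒮 (O (2 * κ + 1)) * cl 𝒮 (𝒮.pw (O (2 * κ + 1)) k) = _
      rw [mul_comm]
    rw [e1]
    exact (sub_tri _ hdim).trans (Sub.mul h9 h8)
  have h11 : ∀ m, Sub (cl 𝒮 (𝒮.pw (O (2 * κ + 1)) m)) (sr (cl 𝒮 (𝒮.pw (O (2 * κ + 1)) m))) := by
    intro m
    induction m with
    | zero => exact part_sr hT hs _
    | succ m ih =>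
      change Sub _ (sr (cl 𝒮 (O (2 * κ + 1)) * cl 𝒮 (𝒮.pw (O (2 * κ + 1)) m)))
      rw [sr_mul]
      exact Sub.mul (part_sr hT hs _) ih
  have h12 : ∀ m, Sub (cl 𝒮 (𝒮.pw (O (2 * κ + 1)) (2 * m + 1)))
      (cl 𝒮 (𝒮.wq (O (2 * κ + 1)) m)) := by
    intro m
    rw [pw_add]
    exact Sub.mul (Sub.refl _) (h11 m)
  rcases Nat.even_or_odd k with ⟨m, hm⟩ | ⟨m, hm⟩
  · refine ⟨m, ?_⟩
    rw [𝒮.h_symm]
    have e1 : k + 1 = 2 * m + 1 := by omega
    rw [e1] at h10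
    exact (h10.trans (h12 m)) (cl 𝒮 S) h6
  · refine ⟨m, ?_⟩
    rw [𝒮.h_symm]
    rw [hm] at h9 h6
    exact (h9.trans (h12 m)) (cl 𝒮 S) h6

end Pool.Agent.L7h32.RL
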