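import Mathlib
import Pool.Agent.L7h85.RL.Stm3

set_option autoImplicit false

/-!
# Generalised fixed vectors of the tensor product of a unipotent operator and another operator
-/

namespace Pool.Agent.L7h32.RL.Tp

open TensorProduct

universe v w

variable {K : Type v} [Field K]

/-- A bound for the dimension. -/
theorem dim_le {W B : Type*} [AddCommGroup W] [Module K W] [Module.Finite K W] [AddCommGroup B]
    [Module K B] [Module.Finite K B] (Φ : W →ₗ[K] B) {Q P : Submodule K W} {R : Submodule K B}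
    (h1 : ∀ z ∈ Q, Φ z ∈ R) (h2 : ∀ z ∈ Q, Φ z = 0 → z ∈ P) :
    Module.finrank K Q ≤ Module.finrank K P + Module.finrank K R := by
  have h := LinearMap.finrank_range_add_finrank_ker (Φ.domRestrict Q)
  have e1 : Module.finrank K (LinearMap.range (Φ.domRestrict Q)) ≤ Module.finrank K R := by
    apply Submodule.finrank_mono
    rintro _ ⟨z, rfl⟩
    exact h1 z.1 z.2
  have e2 : Module.finrank K (LinearMap.ker (Φ.domRestrict Q)) ≤ Module.finrank K P := by
    rw [← Submodule.finrank_map_subtype_eq Q (LinearMap.ker (Φ.domRestrict Q))]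
    apply Submodule.finrank_mono
    rintro _ ⟨z, hz, rfl⟩
    exact h2 z.1 z.2 hz
  omega

variable {U B : Type w} [AddCommGroup U] [Module K U] [Module.Finite K U] [AddCommGroup B]
  [Module K B] [Module.Finite K B]

/-- The tensor product of a subspace with `B`. -/
def til (B : Type w) [AddCommGroup B] [Module K B] (S : Submodule K U) :
    Submodule K (U ⊗[K] B) := Submodule.span K {z | ∃ s ∈ S, ∃ y : B, z = s ⊗ₜ[K] y}

omit [Module.Finite K U] [Module.Finite K B] in
theorem tmul_mem {S : Submodule K U} {s : U} (hs : s ∈ S) (y : B) : s ⊗ₜ[K] y ∈ til B S :=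
  Submodule.subset_span ⟨s, hs, y, rfl⟩

omit [Module.Finite K U] [Module.Finite K B] in
theorem til_bot : til B (⊥ : Submodule K U) = ⊥ := by
  rw [eq_bot_iff, til, Submodule.span_le]
  rintro _ ⟨s, hs, y, rfl⟩
  rw [Submodule.mem_bot] at hs
  rw [hs, TensorProduct.zero_tmul]
  exact Submodule.zero_mem _

omit [Module.Finite K U] [Module.Finite K B] in
theorem til_top : til B (⊤ : Submodule K U) = ⊤ := by
  rw [eq_top_iff, ← TensorProduct.span_tmul_eq_top, Submodule.span_le]
  rintro _ ⟨s, y, rfl⟩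
  exact tmul_mem Submodule.mem_top y

/-- The coordinate of a functional. -/
noncomputable def co (B : Type w) [AddCommGroup B] [Module K B] (φ : U →ₗ[K] K) :
    U ⊗[K] B →ₗ[K] B := (TensorProduct.lid K B).toLinearMap ∘ₗ TensorProduct.map φ LinearMap.id

omit [Module.Finite K U] [Module.Finite K B] in
theorem co_tmul (φ : U →ₗ[K] K) (s : U) (y : B) : co B φ (s ⊗ₜ[K] y) = φ s • y := by
  simp [co]

/-- The operator `u ⊗ b - 1`. -/
noncomputable def Ao (u : U →ₗ[K] U) (b : B →ₗ[K] B) : U ⊗[K] B →ₗ[K] U ⊗[K] B :=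
  TensorProduct.map u b - 1

omit [Module.Finite K U] [Module.Finite K B] in
theorem Ao_tmul (u : U →ₗ[K] U) (b : B →ₗ[K] B) (s : U) (y : B) :
    Ao u b (s ⊗ₜ[K] y) = u s ⊗ₜ[K] b y - s ⊗ₜ[K] y := by
  simp [Ao]

omit [Module.Finite K U] [Module.Finite K B] in
theorem mem_sup {S : Submodule K U} {v : U} {z : U ⊗[K] B}
    (hz : z ∈ til B (S ⊔ Submodule.span K {v})) :
    ∃ z' ∈ til B S, ∃ y : B, z = z' + v ⊗ₜ[K] y := by
  induction hz using Submodule.span_induction with
  | mem x hx =>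
    obtain ⟨s, hs, y, rfl⟩ := hx
    obtain ⟨s', hs', r, hr, rfl⟩ := Submodule.mem_sup.1 hs
    obtain ⟨c, rfl⟩ := Submodule.mem_span_singleton.1 hr
    refine ⟨s' ⊗ₜ[K] y, tmul_mem hs' y, c • y, ?_⟩
    rw [TensorProduct.add_tmul, TensorProduct.smul_tmul]
  | zero => exact ⟨0, Submodule.zero_mem _, 0, by simp⟩
  | add x y _ _ hx hy =>
    obtain ⟨x', hx', a, rfl⟩ := hx
    obtain ⟨y', hy', b, rfl⟩ := hy
    refine ⟨x' + y', Submodule.add_mem _ hx' hy', a + b, ?_⟩
    rw [TensorProduct.tmul_add]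
    abel
  | smul c x _ hx =>
    obtain ⟨x', hx', a, rfl⟩ := hx
    refine ⟨c • x', Submodule.smul_mem _ _ hx', c • a, ?_⟩
    rw [smul_add, TensorProduct.tmul_smul]

omit [Module.Finite K U] [Module.Finite K B] in
theorem Ao_mem {u : U →ₗ[K] U} (b : B →ₗ[K] B) {S : Submodule K U}
    (hS : ∀ s ∈ S, (u - 1) s ∈ S) {z : U ⊗[K] B} (hz : z ∈ til B S) : Ao u b z ∈ til B S := by
  induction hz using Submodule.span_induction with
  | mem x hx =>
    obtain ⟨s, hs, y, rfl⟩ := hx
    rw [Ao_tmul]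
    refine Submodule.sub_mem _ (tmul_mem ?_ _) (tmul_mem hs y)
    have h1 : u s = (u - 1) s + s := by simp
    rw [h1]
    exact Submodule.add_mem _ (hS s hs) hs
  | zero => rw [map_zero]; exact Submodule.zero_mem _
  | add x y _ _ hx hy => rw [map_add]; exact Submodule.add_mem _ hx hy
  | smul c x _ hx => rw [map_smul]; exact Submodule.smul_mem _ _ hx

omit [Module.Finite K U] [Module.Finite K B] in
theorem pow_mem {u : U →ₗ[K] U} (b : B →ₗ[K] B) {S : Submodule K U}
    (hS : ∀ s ∈ S, (u - 1) s ∈ S) (i : ℕ) {z : U ⊗[K] B} (hz : z ∈ til B S) :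
    (Ao u b ^ i) z ∈ til B S := by
  induction i with
  | zero => simpa using hz
  | succ i ih =>
    rw [pow_succ', Module.End.mul_apply]
    exact Ao_mem b hS ih

omit [Module.Finite K U] [Module.Finite K B] in
theorem co_Ao {u : U →ₗ[K] U} (b : B →ₗ[K] B) {S : Submodule K U} {φ : U →ₗ[K] K}
    (h : ∀ s ∈ S, φ (u s) = φ s) {z : U ⊗[K] B} (hz : z ∈ til B S) :
    co B φ (Ao u b z) = (b - 1) (co B φ z) := by
  induction hz using Submodule.span_induction with
  | mem x hx =>
    obtain ⟨s, hs, y, rfl⟩ := hx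
    rw [Ao_tmul, map_sub, co_tmul, co_tmul, h s hs]
    simp [smul_sub]
  | zero => simp
  | add x y _ _ hx hy => rw [map_add, map_add, hx, hy, map_add, map_add]
  | smul c x _ hx => rw [map_smul, map_smul, hx, map_smul, map_smul]

omit [Module.Finite K U] [Module.Finite K B] in
theorem co_pow {u : U →ₗ[K] U} (b : B →ₗ[K] B) {S : Submodule K U}
    (hS : ∀ s ∈ S, (u - 1) s ∈ S) {φ : U →ₗ[K] K}
    (h : ∀ s ∈ S, φ (u s) = φ s) (i : ℕ) {z : U ⊗[K] B} (hz : z ∈ til B S) :
    co B φ ((Ao u b ^ i) z) = ((b - 1) ^ i) (co B φ z) := by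
  induction i with
  | zero => simp
  | succ i ih =>
    rw [pow_succ', Module.End.mul_apply, co_Ao b h (pow_mem b hS i hz), ih, pow_succ',
      Module.End.mul_apply]

/-- The dimension of the generalised fixed vectors in `til B S`. -/
noncomputable def fd (u : U →ₗ[K] U) (b : B →ₗ[K] B) (i : ℕ) (S : Submodule K U) : ℕ :=
  Module.finrank K (LinearMap.ker (Ao u b ^ i) ⊓ til B S : Submodule K (U ⊗[K] B))

/-- One more dimension. -/
theorem fd_sup (u : U →ₗ[K] U) (b : B →ₗ[K] B) (i : ℕ) {S : Submodule K U}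
    (hS : ∀ s ∈ S, (u - 1) s ∈ S) {v : U} (hv : v ∉ S) (hNv : (u - 1) v ∈ S) :
    fd u b i (S ⊔ Submodule.span K {v}) ≤
      fd u b i S + Module.finrank K (LinearMap.ker ((b - 1) ^ i)) := by
  obtain ⟨φ₀, h1, h2⟩ := Submodule.exists_dual_map_eq_bot_of_notMem hv inferInstance
  set φ : U →ₗ[K] K := (φ₀ v)⁻¹ • φ₀ with hφ
  have hφv : φ v = 1 := by
    rw [hφ, LinearMap.smul_apply, smul_eq_mul, inv_mul_cancel₀ h1]
  have hφS : ∀ s ∈ S, φ s = 0 := by
    intro s hs
    have : φ₀ s ∈ S.map φ₀ := ⟨s, hs, rfl⟩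
    rw [h2, Submodule.mem_bot] at this
    rw [hφ, LinearMap.smul_apply, this, smul_zero]
  set S' := S ⊔ Submodule.span K {v} with hS'
  have hN : ∀ s ∈ S', (u - 1) s ∈ S := by
    intro s hs
    obtain ⟨s', hs', r, hr, rfl⟩ := Submodule.mem_sup.1 hs
    obtain ⟨c, rfl⟩ := Submodule.mem_span_singleton.1 hr
    rw [map_add, map_smul]
    exact Submodule.add_mem _ (hS s' hs') (Submodule.smul_mem _ _ hNv)
  have hle : S ≤ S' := le_sup_left
  have hφu : ∀ s ∈ S', φ (u s) = φ s := by
    intro s hs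
    have h3 : u s = (u - 1) s + s := by simp
    rw [h3, map_add, hφS _ (hN s hs), zero_add]
  have hco0 : ∀ z ∈ til B S, co B φ z = 0 := by
    intro z hz
    induction hz using Submodule.span_induction with
    | mem x hx =>
      obtain ⟨s, hs, y, rfl⟩ := hx
      rw [co_tmul, hφS s hs, zero_smul]
    | zero => simp
    | add x y _ _ hx hy => rw [map_add, hx, hy, add_zero]
    | smul c x _ hx => rw [map_smul, hx, smul_zero]
  refine dim_le (co B φ) ?_ ?_
  · rintro z ⟨hz1, hz2⟩
    rw [LinearMap.mem_ker, ← co_pow b (fun s hs => hle (hN s hs)) hφu i hz2,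
      LinearMap.mem_ker.1 hz1, map_zero]
  · rintro z ⟨hz1, hz2⟩ hz3
    refine ⟨hz1, ?_⟩
    obtain ⟨z', hz', y, rfl⟩ := mem_sup hz2
    rw [map_add, hco0 z' hz', zero_add, co_tmul, hφv, one_smul] at hz3
    rw [hz3, TensorProduct.tmul_zero, add_zero]
    exact hz'

/-- The filtration. -/
theorem fd_le {u : U →ₗ[K] U} (hu : IsNilpotent (u - 1)) (b : B →ₗ[K] B) (i : ℕ) (m : ℕ) :
    ∀ S : Submodule K U, (∀ s ∈ S, (u - 1) s ∈ S) →
      Module.finrank K U = Module.finrank K S + m →
      Module.finrank K (LinearMap.ker (Ao u b ^ i)) ≤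
        fd u b i S + m * Module.finrank K (LinearMap.ker ((b - 1) ^ i)) := by
  obtain ⟨k, hk⟩ := hu
  induction m with
  | zero =>
    intro S hS hm
    rw [add_zero] at hm
    have h1 : S = ⊤ := Submodule.eq_top_of_finrank_eq hm.symm
    rw [h1, fd, til_top, inf_top_eq, zero_mul, add_zero]
  | succ m ih =>
    intro S hS hm
    have hne : S ≠ ⊤ := by
      rintro rfl
      rw [finrank_top] at hm
      omega
    obtain ⟨x, -, hx⟩ := SetLike.exists_of_lt (lt_top_iff_ne_top.2 hne)
    -- the last power outside `S`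
    classical
    have hex : ∃ j : ℕ, ((u - 1 : U →ₗ[K] U) ^ j) x ∈ S := ⟨k, by rw [hk]; simp⟩
    set j := Nat.find hex with hj
    have hj1 : ((u - 1 : U →ₗ[K] U) ^ j) x ∈ S := Nat.find_spec hex
    have hj0 : j ≠ 0 := by
      intro h0
      rw [h0, pow_zero] at hj1
      exact hx hj1
    obtain ⟨l, hl⟩ := Nat.exists_eq_succ_of_ne_zero hj0
    set v := ((u - 1 : U →ₗ[K] U) ^ l) x with hv
    have hvS : v ∉ S := Nat.find_min hex (by omega)
    have hNv : (u - 1) v ∈ S := by
      rw [hv, ← Module.End.mul_apply, ← pow_succ']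
      rw [hl] at hj1
      exact hj1
    have hN : ∀ s ∈ S ⊔ Submodule.span K {v}, (u - 1) s ∈ S ⊔ Submodule.span K {v} := by
      intro s hs
      obtain ⟨s', hs', r, hr, rfl⟩ := Submodule.mem_sup.1 hs
      obtain ⟨c, rfl⟩ := Submodule.mem_span_singleton.1 hr
      rw [map_add, map_smul]
      exact Submodule.mem_sup_left
        (Submodule.add_mem _ (hS s' hs') (Submodule.smul_mem _ _ hNv))
    have hdim : Module.finrank K (S ⊔ Submodule.span K {v} : Submodule K U) =
        Module.finrank K S + 1 := by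
      have h1 := Submodule.finrank_sup_add_finrank_inf_eq S (Submodule.span K {v})
      have h2 : S ⊓ Submodule.span K {v} = ⊥ := by
        rw [Submodule.eq_bot_iff]
        rintro y ⟨hy1, hy2⟩
        obtain ⟨c, rfl⟩ := Submodule.mem_span_singleton.1 hy2
        by_cases hc : c = 0
        · rw [hc, zero_smul]
        · exact absurd ((Submodule.smul_mem_iff S hc).1 hy1) hvS
      have h3 : v ≠ 0 := fun h => hvS (h ▸ Submodule.zero_mem S)
      rw [h2, finrank_bot, add_zero, finrank_span_singleton h3] at h1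
      exact h1
    have h1 := ih (S ⊔ Submodule.span K {v}) hN (by rw [hm, hdim]; ring)
    have h2 := fd_sup u b i hS hvS hNv
    calc Module.finrank K (LinearMap.ker (Ao u b ^ i)) ≤ _ := h1
      _ ≤ fd u b i S + Module.finrank K (LinearMap.ker ((b - 1) ^ i)) +
          m * Module.finrank K (LinearMap.ker ((b - 1) ^ i)) := Nat.add_le_add_right h2 _
      _ = _ := by ring

end Pool.Agent.L7h32.RL.Tp

namespace Pool.Agent.L7h32.RL

open Pool.Agent.L7h85.RL

universe v w

theorem s_KTP : S_KTP.{v, w} := by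
  intro K _ U B _ _ _ _ _ _ u b hu
  have h := Tp.fd_le hu b 1 (Module.finrank K U) ⊥ (fun s hs => by
    rw [Submodule.mem_bot] at hs
    rw [hs, map_zero]
    exact Submodule.zero_mem _) (by rw [finrank_bot, zero_add])
  rw [pow_one, pow_one] at h
  refine h.trans ?_
  rw [Tp.fd, Tp.til_bot, inf_bot_eq, finrank_bot, zero_add]

end Pool.Agent.L7h32.RL
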