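import Mathlib
import Pool.Agent.L7h32.RL.Ktp

set_option autoImplicit false

/-!
# Fixed vectors of the tensor powers of a unipotent operator
-/

namespace Pool.Agent.L7h32.RL.Tp

open TensorProduct

universe v w

section

variable {K : Type v} [Field K] {U B : Type w} [AddCommGroup U] [Module K U] [Module.Finite K U]
  [AddCommGroup B] [Module K B] [Module.Finite K B]

omit [Module.Finite K U] [Module.Finite K B] in
theorem pow_form {u : U →ₗ[K] U} (b : B →ₗ[K] B) {y v : U} (hy : u y = y) (hv : u v = v + y)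
    (a c : B) (n : ℕ) :
    (Ao u b ^ (n + 1)) (y ⊗ₜ[K] a + v ⊗ₜ[K] c) =
      y ⊗ₜ[K] (((b - 1) ^ (n + 1)) a + ((n + 1 : ℕ) : K) • b (((b - 1) ^ n) c)) +
        v ⊗ₜ[K] (((b - 1) ^ (n + 1)) c) := by
  have h1 : ∀ α γ : B, Ao u b (y ⊗ₜ[K] α + v ⊗ₜ[K] γ) =
      y ⊗ₜ[K] ((b - 1) α + b γ) + v ⊗ₜ[K] ((b - 1) γ) := by
    intro α γ
    rw [map_add, Ao_tmul, Ao_tmul, hy, hv, TensorProduct.add_tmul, LinearMap.sub_apply,
      LinearMap.sub_apply, Module.End.one_apply, Module.End.one_apply, TensorProduct.tmul_add,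
      TensorProduct.tmul_sub, TensorProduct.tmul_sub]
    abel
  have hcomm : ∀ x : B, (b - 1) (b x) = b ((b - 1) x) := by
    intro x
    simp
  induction n with
  | zero =>
    rw [zero_add, pow_one, h1]
    simp
  | succ n ih =>
    rw [pow_succ', Module.End.mul_apply, ih, h1, pow_succ' (b - 1) (n + 1),
      Module.End.mul_apply, Module.End.mul_apply]
    congr 2
    rw [map_add, map_smul, hcomm, add_assoc]
    congr 1
    have h2 : (b - 1) (((b - 1) ^ n) c) = ((b - 1) ^ (n + 1)) c := by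
      rw [pow_succ', Module.End.mul_apply]
    rw [h2]
    push_cast
    module

/-- The profile of the tensor product. -/
theorem star [CharZero K] {u : U →ₗ[K] U} (hu : IsNilpotent (u - 1)) (hne : u ≠ 1)
    (b : B →ₗ[K] B) (hb : Function.Injective b) :
    ∃ m : ℕ, Module.finrank K U = 2 + m ∧ ∀ i : ℕ,
      Module.finrank K (LinearMap.ker (Ao u b ^ (i + 1))) ≤
        Module.finrank K (LinearMap.ker ((b - 1) ^ i)) +
        Module.finrank K (LinearMap.ker ((b - 1) ^ (i + 2))) +
        m * Module.finrank K (LinearMap.ker ((b - 1) ^ (i + 1))) := by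
  classical
  -- the vectors
  obtain ⟨y, v, hy0, hy, hv⟩ : ∃ y v : U, y ≠ 0 ∧ u y = y ∧ u v = v + y := by
    have hex : ∃ j : ℕ, (u - 1 : U →ₗ[K] U) ^ j = 0 := hu
    set j := Nat.find hex with hj
    have hj1 : (u - 1 : U →ₗ[K] U) ^ j = 0 := Nat.find_spec hex
    have hj2 : 2 ≤ j := by
      by_contra hlt
      push Not at hlt
      interval_cases h : j
      · rw [pow_zero] at hj1
        apply hne
        rw [← mul_one u, hj1, mul_zero]
      · rw [pow_one, sub_eq_zero] at hj1
        exact hne hj1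
    obtain ⟨l, hl⟩ := Nat.exists_eq_add_of_le hj2
    have hmin : (u - 1 : U →ₗ[K] U) ^ (l + 1) ≠ 0 := Nat.find_min hex (by omega)
    obtain ⟨z, hz⟩ : ∃ z, ((u - 1 : U →ₗ[K] U) ^ (l + 1)) z ≠ 0 := by
      by_contra hcon
      push Not at hcon
      exact hmin (LinearMap.ext hcon)
    have h1 : (u - 1 : U →ₗ[K] U) (((u - 1 : U →ₗ[K] U) ^ l) z) =
        ((u - 1 : U →ₗ[K] U) ^ (l + 1)) z := by
      rw [pow_succ', Module.End.mul_apply]
    have h2 : (u - 1 : U →ₗ[K] U) (((u - 1 : U →ₗ[K] U) ^ (l + 1)) z) = 0 := by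
      rw [← Module.End.mul_apply, ← pow_succ']
      have : l + 1 + 1 = j := by omega
      rw [this, hj1, LinearMap.zero_apply]
    refine ⟨((u - 1 : U →ₗ[K] U) ^ (l + 1)) z, ((u - 1 : U →ₗ[K] U) ^ l) z, hz, ?_, ?_⟩
    · rw [LinearMap.sub_apply, Module.End.one_apply, sub_eq_zero] at h2
      exact h2
    · rw [LinearMap.sub_apply, Module.End.one_apply, sub_eq_iff_eq_add'] at h1
      exact h1
  have hNy : (u - 1) y = 0 := by rw [LinearMap.sub_apply, Module.End.one_apply, hy, sub_self]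
  have hNv : (u - 1) v = y := by
    rw [LinearMap.sub_apply, Module.End.one_apply, hv, add_sub_cancel_left]
  have hvy : v ∉ Submodule.span K {y} := by
    intro h
    obtain ⟨c, hc⟩ := Submodule.mem_span_singleton.1 h
    rw [← hc, map_smul, hNy, smul_zero] at hNv
    exact hy0 hNv.symm
  have hyv : y ∉ Submodule.span K {v} := by
    intro h
    obtain ⟨c, hc⟩ := Submodule.mem_span_singleton.1 h
    have h1 : c • y = 0 := by
      rw [← hNv, ← map_smul, hc, hNy]
    rcases smul_eq_zero.1 h1 with h2 | h2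
    · rw [h2, zero_smul] at hc
      exact hy0 hc.symm
    · exact hy0 h2
  -- functionals
  have hfun : ∀ p q : U, p ∉ Submodule.span K {q} → ∃ φ : U →ₗ[K] K, φ p = 1 ∧ φ q = 0 := by
    intro p q hpq
    obtain ⟨φ₀, h1, h2⟩ := Submodule.exists_dual_map_eq_bot_of_notMem hpq inferInstance
    refine ⟨(φ₀ p)⁻¹ • φ₀, ?_, ?_⟩
    · rw [LinearMap.smul_apply, smul_eq_mul, inv_mul_cancel₀ h1]
    · have : φ₀ q ∈ (Submodule.span K {q}).map φ₀ := ⟨q, Submodule.mem_span_singleton_self q, rfl⟩
      rw [h2, Submodule.mem_bot] at this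
      rw [LinearMap.smul_apply, this, smul_zero]
  obtain ⟨φv, hvv, hvy0⟩ := hfun v y hvy
  obtain ⟨φy, hyy, hyv0⟩ := hfun y v hyv
  set S : Submodule K U := Submodule.span K {y} ⊔ Submodule.span K {v} with hS
  have hSdim : Module.finrank K S = 2 := by
    have h1 := Submodule.finrank_sup_add_finrank_inf_eq (Submodule.span K {y})
      (Submodule.span K {v})
    have h2 : Submodule.span K {y} ⊓ Submodule.span K {v} = ⊥ := by
      rw [Submodule.eq_bot_iff]
      rintro x ⟨hx1, hx2⟩
      obtain ⟨c, rfl⟩ := Submodule.mem_span_singleton.1 hx2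
      by_cases hc : c = 0
      · rw [hc, zero_smul]
      · exact absurd ((Submodule.smul_mem_iff _ hc).1 hx1) hvy
    have h3 : v ≠ 0 := fun h => hvy (h ▸ Submodule.zero_mem _)
    rw [h2, finrank_bot, add_zero, finrank_span_singleton h3, finrank_span_singleton hy0] at h1
    exact h1
  obtain ⟨m, hm⟩ : ∃ m, Module.finrank K U = 2 + m := by
    have := Submodule.finrank_le S
    rw [hSdim] at this
    exact Nat.exists_eq_add_of_le this
  refine ⟨m, hm, fun i => ?_⟩
  have hinv : ∀ s ∈ S, (u - 1) s ∈ S := by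
    intro s hs
    obtain ⟨s', hs', r, hr, rfl⟩ := Submodule.mem_sup.1 hs
    obtain ⟨c, rfl⟩ := Submodule.mem_span_singleton.1 hs'
    obtain ⟨c', rfl⟩ := Submodule.mem_span_singleton.1 hr
    rw [map_add, map_smul, map_smul, hNy, hNv, smul_zero, zero_add]
    exact Submodule.smul_mem _ _ (Submodule.mem_sup_left (Submodule.mem_span_singleton_self y))
  have h1 := fd_le hu b (i + 1) m S hinv (by rw [hSdim]; exact hm)
  refine h1.trans (Nat.add_le_add_right ?_ _)
  -- the two-dimensional part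
  have hform : ∀ z ∈ til B S, ∃ a c : B, z = y ⊗ₜ[K] a + v ⊗ₜ[K] c := by
    intro z hz
    obtain ⟨z', hz', c, rfl⟩ := mem_sup hz
    have hz'2 : z' ∈ til B ((⊥ : Submodule K U) ⊔ Submodule.span K {y}) := by
      rw [bot_sup_eq]
      exact hz'
    obtain ⟨z'', hz'', a, rfl⟩ := mem_sup hz'2
    rw [til_bot, Submodule.mem_bot] at hz''
    exact ⟨a, c, by rw [hz'', zero_add]⟩
  have hco : ∀ a c : B, co B φy (y ⊗ₜ[K] a + v ⊗ₜ[K] c) = a ∧
      co B φv (y ⊗ₜ[K] a + v ⊗ₜ[K] c) = c := by
    intro a c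
    constructor
    · rw [map_add, co_tmul, co_tmul, hyy, hyv0, one_smul, zero_smul, add_zero]
    · rw [map_add, co_tmul, co_tmul, hvv, hvy0, one_smul, zero_smul, zero_add]
  have hcommp : ∀ (n : ℕ) (x : B), ((b - 1) ^ n) (b x) = b (((b - 1) ^ n) x) := by
    intro n
    induction n with
    | zero => intro x; simp
    | succ n ih =>
      intro x
      rw [pow_succ, Module.End.mul_apply, Module.End.mul_apply]
      have : (b - 1) (b x) = b ((b - 1) x) := by simp
      rw [this, ih]
  have hker : ∀ z ∈ (LinearMap.ker (Ao u b ^ (i + 1)) ⊓ til B S : Submodule K (U ⊗[K] B)),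
      ∃ a c : B, z = y ⊗ₜ[K] a + v ⊗ₜ[K] c ∧
        ((b - 1) ^ (i + 1)) a + ((i + 1 : ℕ) : K) • b (((b - 1) ^ i) c) = 0 ∧
        ((b - 1) ^ (i + 1)) c = 0 := by
    rintro z ⟨hz1, hz2⟩
    obtain ⟨a, c, rfl⟩ := hform z hz2
    refine ⟨a, c, rfl, ?_⟩
    have h2 : (Ao u b ^ (i + 1)) (y ⊗ₜ[K] a + v ⊗ₜ[K] c) = 0 := hz1
    rw [pow_form b hy hv] at h2
    have h3 := congrArg (co B φy) h2
    have h4 := congrArg (co B φv) h2
    rw [(hco _ _).1, map_zero] at h3
    rw [(hco _ _).2, map_zero] at h4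
    exact ⟨h3, h4⟩
  -- the first map
  let ψ : U ⊗[K] B →ₗ[K] B := (b - 1) ∘ₗ co B φy + ((i + 1 : ℕ) : K) • (b ∘ₗ co B φv)
  have hψ : ∀ a c : B, ψ (y ⊗ₜ[K] a + v ⊗ₜ[K] c) = (b - 1) a + ((i + 1 : ℕ) : K) • b c := by
    intro a c
    show (b - 1) (co B φy (y ⊗ₜ[K] a + v ⊗ₜ[K] c)) +
      ((i + 1 : ℕ) : K) • b (co B φv (y ⊗ₜ[K] a + v ⊗ₜ[K] c)) = _
    rw [(hco a c).1, (hco a c).2]
  have hstep1 := dim_le (K := K) ψ
    (Q := (LinearMap.ker (Ao u b ^ (i + 1)) ⊓ til B S : Submodule K (U ⊗[K] B)))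
    (P := (LinearMap.ker (Ao u b ^ (i + 1)) ⊓ til B S ⊓ LinearMap.ker ψ :
      Submodule K (U ⊗[K] B)))
    (R := LinearMap.ker ((b - 1) ^ i)) (by
      intro z hz
      obtain ⟨a, c, rfl, h3, h4⟩ := hker z hz
      rw [hψ, LinearMap.mem_ker, map_add, map_smul, hcommp, ← Module.End.mul_apply,
        ← pow_succ]
      exact h3) (by
      intro z hz hz0
      exact ⟨hz, hz0⟩)
  have hi : ((i + 1 : ℕ) : K) ≠ 0 := Nat.cast_ne_zero.2 (by omega)
  have hstep2 := dim_le (K := K) (co B φy)
    (Q := (LinearMap.ker (Ao u b ^ (i + 1)) ⊓ til B S ⊓ LinearMap.ker ψ :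
      Submodule K (U ⊗[K] B)))
    (P := ⊥) (R := LinearMap.ker ((b - 1) ^ (i + 2))) (by
      rintro z ⟨hz, hz0⟩
      obtain ⟨a, c, rfl, h3, h4⟩ := hker z hz
      have h5 : ψ (y ⊗ₜ[K] a + v ⊗ₜ[K] c) = 0 := hz0
      rw [hψ, add_eq_zero_iff_eq_neg] at h5
      rw [(hco a c).1, LinearMap.mem_ker]
      have e : i + 2 = (i + 1) + 1 := rfl
      rw [e, pow_succ, Module.End.mul_apply, h5, map_neg, map_smul, hcommp, h4, map_zero,
        smul_zero, neg_zero]) (by
      rintro z ⟨hz, hz0⟩ hz1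
      obtain ⟨a, c, rfl, h3, h4⟩ := hker z hz
      have h5 : ψ (y ⊗ₜ[K] a + v ⊗ₜ[K] c) = 0 := hz0
      rw [hψ] at h5
      rw [(hco a c).1] at hz1
      rw [hz1, map_zero, zero_add, smul_eq_zero] at h5
      have h6 : b c = 0 := h5.resolve_left hi
      have h7 : c = 0 := hb (by rw [h6, map_zero])
      rw [hz1, h7, TensorProduct.tmul_zero, TensorProduct.tmul_zero, add_zero]
      exact Submodule.zero_mem _)
  rw [finrank_bot, zero_add] at hstep2
  rw [fd]
  omega

end

/-! ### The recursion -/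

/-- The survival probability of a lazy walk. -/
theorem walk {h : ℕ → ℕ → ℝ} {x : ℝ} (hx : 2 ≤ x) (h0 : ∀ n, h 0 n = 0) (h1 : ∀ i n, h i n ≤ 1)
    (hrec : ∀ i n, x * h (i + 1) (n + 1) ≤ h i n + h (i + 2) n + (x - 2) * h (i + 1) n)
    (R : ℕ) (hR : 1 ≤ R) (n : ℕ) :
    ∀ i, i ≤ R → (n + 1 : ℝ) * h i n ≤ (n + 1) * (i / R) + x / 2 * (i * (R - i)) := by
  have hR0 : (0 : ℝ) < R := by exact_mod_cast hR
  have hx0 : 0 < x := by linarith
  induction n with
  | zero =>
    intro i hi
    rcases Nat.eq_zero_or_pos i with rfl | hi0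
    · rw [h0]; simp
    · have hi0' : (1 : ℝ) ≤ i := by exact_mod_cast hi0
      rcases Nat.lt_or_ge i R with hlt | hge
      · have hlt' : (i : ℝ) + 1 ≤ R := by exact_mod_cast hlt
        have h2 : 1 ≤ (i : ℝ) * (R - i) := by nlinarith
        have h3 : 0 ≤ (i : ℝ) / R := by positivity
        have h4 := h1 i 0
        simp only [Nat.cast_zero, zero_add, one_mul]
        nlinarith
      · have : i = R := le_antisymm hi hge
        subst this
        have h4 := h1 i 0
        rw [div_self hR0.ne', sub_self]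
        simp only [Nat.cast_zero, zero_add, one_mul]
        linarith
  | succ n ih =>
    intro i hi
    rcases Nat.eq_zero_or_pos i with rfl | hi0
    · rw [h0]; simp
    · rcases Nat.lt_or_ge i R with hlt | hge
      · obtain ⟨j, rfl⟩ := Nat.exists_eq_succ_of_ne_zero hi0.ne'
        have e1 := ih j (by omega)
        have e2 := ih (j + 2) (by omega)
        have e3 := ih (j + 1) (by omega)
        have e4 := hrec j n
        have e5 := h1 (j + 1) (n + 1)
        have hn : (0 : ℝ) ≤ n + 1 := by positivity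
        have e6 : (n + 1 : ℝ) * (x * h (j + 1) (n + 1)) ≤
            (n + 1 : ℝ) * (h j n + h (j + 2) n + (x - 2) * h (j + 1) n) :=
          mul_le_mul_of_nonneg_left e4 hn
        have e7 : (x - 2) * ((n + 1 : ℝ) * h (j + 1) n) ≤
            (x - 2) * ((n + 1) * (((j + 1 : ℕ) : ℝ) / R) +
              x / 2 * (((j + 1 : ℕ) : ℝ) * (R - ((j + 1 : ℕ) : ℝ)))) :=
          mul_le_mul_of_nonneg_left e3 (by linarith)
        push_cast at e1 e2 e7 ⊢
        have e8 : x * ((n + 1 : ℝ) * h (j + 1) (n + 1)) ≤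
            x * ((n + 1) * (((j : ℝ) + 1) / R) + x / 2 * (((j : ℝ) + 1) * (R - (j + 1))) - 1) := by
          have e9 : (n + 1 : ℝ) * (j / R) + (n + 1) * ((j + 2) / R) =
              2 * ((n + 1) * ((j + 1) / R)) := by ring
          nlinarith
        have e10 : (n + 1 : ℝ) * h (j + 1) (n + 1) ≤
            (n + 1) * (((j : ℝ) + 1) / R) + x / 2 * (((j : ℝ) + 1) * (R - (j + 1))) - 1 :=
          le_of_mul_le_mul_left e8 hx0
        have e11 : 0 ≤ ((j : ℝ) + 1) / R := by positivity
        nlinarith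
      · have : i = R := le_antisymm hi hge
        subst this
        have h4 := h1 i (n + 1)
        rw [div_self hR0.ne', sub_self]
        push_cast
        have hn : (0 : ℝ) ≤ n + 1 + 1 := by positivity
        nlinarith

end Pool.Agent.L7h32.RL.Tp

namespace Pool.Agent.L7h32.RL

open Pool.Agent.L7h85.RL TensorProduct

universe v w

theorem s_KER : S_KER.{v, w} := by
  intro K _ _ V _ _ _ e u hcomm hnil hne
  -- injectivity
  have hinj : ∀ n, Function.Injective (u n) := by
    have hbij : ∀ n, IsUnit (u n) := by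
      intro n
      induction n with
      | zero =>
        have h1 : IsUnit (1 + (u 0 - 1)) := hnil.isUnit_one_add
        rwa [add_sub_cancel] at h1
      | succ n ih =>
        have h0 : IsUnit (u 0) := by
          have h1 : IsUnit (1 + (u 0 - 1)) := hnil.isUnit_one_add
          rwa [add_sub_cancel] at h1
        rw [Module.End.isUnit_iff] at h0 ih ⊢
        have h2 : Function.Bijective (TensorProduct.map (u 0) (u n)) := by
          have : TensorProduct.map (u 0) (u n) = (TensorProduct.congr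
              (LinearEquiv.ofBijective (u 0) h0) (LinearEquiv.ofBijective (u n) ih)).toLinearMap := by
            ext a b
            simp
          rw [this]
          exact LinearEquiv.bijective _
        have h3 : u (n + 1) = (e n).toLinearMap ∘ₗ TensorProduct.map (u 0) (u n) ∘ₗ
            (e n).symm.toLinearMap := by
          rw [← LinearMap.comp_assoc, ← hcomm, LinearMap.comp_assoc]
          simp
        rw [h3]
        simp only [LinearMap.coe_comp, LinearEquiv.coe_coe]
        exact (e n).bijective.comp (h2.comp (e n).symm.bijective)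
    intro n
    exact ((Module.End.isUnit_iff _).1 (hbij n)).1
  -- dimensions
  set x : ℕ := Module.finrank K (V 0) with hx
  have hdim : ∀ n, Module.finrank K (V n) = x ^ (n + 1) := by
    intro n
    induction n with
    | zero => rw [zero_add, pow_one]
    | succ n ih =>
      rw [← (e n).finrank_eq, Module.finrank_tensorProduct, ih, ← pow_succ']
  -- the profiles
  let κ : ℕ → ℕ → ℕ := fun i n => Module.finrank K (LinearMap.ker ((u n - 1) ^ i))
  have hκ0 : ∀ n, κ 0 n = 0 := by
    intro n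
    show Module.finrank K (LinearMap.ker ((u n - 1) ^ 0)) = 0
    rw [pow_zero]
    have : LinearMap.ker (1 : V n →ₗ[K] V n) = ⊥ := LinearMap.ker_id
    rw [this, finrank_bot]
  have hκ1 : ∀ i n, κ i n ≤ x ^ (n + 1) := by
    intro i n
    rw [← hdim n]
    exact Submodule.finrank_le _
  have hconj : ∀ n i, κ i (n + 1) =
      Module.finrank K (LinearMap.ker (Tp.Ao (u 0) (u n) ^ i)) := by
    intro n i
    have h1 : ∀ i, ((u (n + 1) - 1) ^ i) ∘ₗ (e n).toLinearMap =
        (e n).toLinearMap ∘ₗ (Tp.Ao (u 0) (u n) ^ i) := by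
      intro i
      induction i with
      | zero =>
        rw [pow_zero, pow_zero]
        rfl
      | succ i ih =>
        have h2 : (u (n + 1) - 1) ∘ₗ (e n).toLinearMap =
            (e n).toLinearMap ∘ₗ Tp.Ao (u 0) (u n) := by
          rw [Tp.Ao, LinearMap.sub_comp, LinearMap.comp_sub, hcomm]
          rfl
        rw [pow_succ, pow_succ, Module.End.mul_eq_comp, Module.End.mul_eq_comp,
          LinearMap.comp_assoc, h2, ← LinearMap.comp_assoc, ih, LinearMap.comp_assoc]
    show Module.finrank K (LinearMap.ker ((u (n + 1) - 1) ^ i)) = _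
    have h3 : LinearMap.ker ((u (n + 1) - 1) ^ i) =
        (LinearMap.ker (Tp.Ao (u 0) (u n) ^ i)).map (e n).toLinearMap := by
      ext z
      constructor
      · intro hz
        refine ⟨(e n).symm z, ?_, by simp⟩
        have h4 := LinearMap.congr_fun (h1 i) ((e n).symm z)
        simp only [LinearMap.coe_comp, Function.comp_apply, LinearEquiv.coe_coe,
          LinearEquiv.apply_symm_apply] at h4
        rw [LinearMap.mem_ker.1 hz] at h4
        exact ((e n).map_eq_zero_iff.1 h4.symm)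
      · rintro ⟨z', hz', rfl⟩
        have h4 := LinearMap.congr_fun (h1 i) z'
        simp only [LinearMap.coe_comp, Function.comp_apply, LinearEquiv.coe_coe] at h4
        rw [LinearMap.mem_ker]
        show ((u (n + 1) - 1) ^ i) ((e n) z') = 0
        rw [h4, LinearMap.mem_ker.1 hz', map_zero]
    rw [h3]
    exact LinearEquiv.finrank_map_eq (e n) _
  obtain ⟨m, hm, -⟩ := Tp.star hnil hne (u 0) (hinj 0)
  have hrec : ∀ i n, κ (i + 1) (n + 1) ≤ κ i n + κ (i + 2) n + m * κ (i + 1) n := by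
    intro i n
    obtain ⟨m', hm', h1⟩ := Tp.star hnil hne (u n) (hinj n)
    have : m' = m := by omega
    subst this
    rw [hconj]
    exact h1 i
  have hx2 : (2 : ℝ) ≤ x := by
    have : 2 ≤ x := by omega
    exact_mod_cast this
  have hx0 : (0 : ℝ) < x := by linarith
  -- the walk
  have hw := Tp.walk (h := fun i n => (κ i n : ℝ) / (x : ℝ) ^ (n + 1)) hx2 (fun n => by
      simp only [hκ0, Nat.cast_zero, zero_div]) (fun i n => by
      rw [div_le_one (by positivity)]
      exact_mod_cast hκ1 i n) (fun i n => by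
      have h1 : (κ (i + 1) (n + 1) : ℝ) ≤ κ i n + κ (i + 2) n + m * κ (i + 1) n := by
        exact_mod_cast hrec i n
      have h2 : (m : ℝ) = x - 2 := by
        have : (x : ℝ) = 2 + m := by exact_mod_cast hm
        linarith
      rw [h2] at h1
      have hp : (0 : ℝ) < (x : ℝ) ^ (n + 1) := by positivity
      calc (x : ℝ) * ((κ (i + 1) (n + 1) : ℝ) / (x : ℝ) ^ (n + 1 + 1))
          = κ (i + 1) (n + 1) / (x : ℝ) ^ (n + 1) := by
            rw [pow_succ (x : ℝ) (n + 1)]
            field_simp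
        _ ≤ (κ i n + κ (i + 2) n + (x - 2) * κ (i + 1) n) / (x : ℝ) ^ (n + 1) :=
            div_le_div_of_nonneg_right h1 hp.le
        _ = _ := by ring)
  refine ⟨1 + x / 2, by positivity, fun n => ?_⟩
  have hs0 : (0 : ℝ) < n + 1 := by positivity
  set s := √((n : ℝ) + 1) with hs
  have hs1 : 1 ≤ s := by
    rw [hs]
    apply Real.one_le_sqrt.2
    have : (0 : ℝ) ≤ n := Nat.cast_nonneg _
    linarith
  have hss : s * s = n + 1 := Real.mul_self_sqrt hs0.le
  set R := ⌈s⌉₊ with hR
  have hR1 : s ≤ R := Nat.le_ceil _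
  have hR2 : (R : ℝ) < s + 1 := Nat.ceil_lt_add_one (by linarith)
  have hR3 : 1 ≤ R := by
    have : (1 : ℝ) ≤ R := hs1.trans hR1
    exact_mod_cast this
  have hw1 := hw R hR3 n 1 hR3
  simp only [Nat.cast_one, one_mul] at hw1
  have hp : (0 : ℝ) < (x : ℝ) ^ (n + 1) := by positivity
  have h5 : (n + 1 : ℝ) * (1 / R) ≤ s := by
    rw [mul_one_div, div_le_iff₀ (by linarith), ← hss]
    exact mul_le_mul_of_nonneg_left hR1 (by linarith)
  have h6 : (x : ℝ) / 2 * (R - 1) ≤ x / 2 * s := mul_le_mul_of_nonneg_left (by linarith)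
    (by positivity)
  have h7 : s * s * ((κ 1 n : ℝ) / (x : ℝ) ^ (n + 1)) ≤ (1 + x / 2) * s := by
    rw [hss]
    linarith
  have h8 : s * ((κ 1 n : ℝ) / (x : ℝ) ^ (n + 1)) ≤ 1 + x / 2 := by
    have : s * (s * ((κ 1 n : ℝ) / (x : ℝ) ^ (n + 1))) ≤ s * (1 + x / 2) := by linarith
    exact le_of_mul_le_mul_left this (by linarith)
  have h9 : κ 1 n = Module.finrank K (LinearMap.ker (u n - 1)) := by
    show Module.finrank K (LinearMap.ker ((u n - 1) ^ 1)) = _
    rw [pow_one]
  rw [← h9, le_div_iff₀ (by linarith)]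
  rw [mul_div_assoc', div_le_iff₀ hp] at h8
  linarith

end Pool.Agent.L7h32.RL
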