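import Mathlib
import Pool.Agent.L7h32.RL.Bas

set_option autoImplicit false

/-!
# The parts POS, LOW and FIN
-/

namespace Pool.Agent.L7h32.RL

open Finset Pool.Agent.L7h85.RL

universe u

theorem s_POS : S_POS.{u} := by
  intro Ob 𝒮 T hT V O R hV hs κ M hκ
  have h1 := h_self_pos hκ
  obtain ⟨S, h2, h3, -⟩ := exists_simple h1
  have hTS : T S := hT.sub (hs κ).mem h2 h3
  have hX : T (𝒮.ten S (𝒮.dual S)) := hT.ten hTS (hT.dual hTS)
  have h4 := hom_part hT (hs M) hX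
  have h5 : 𝒮.h (𝒮.wq V M) (𝒮.ten S (𝒮.dual S)) =
      𝒮.h (𝒮.ten S (𝒮.pw V M)) (𝒮.ten S (𝒮.pw V M)) := by
    change hh (cl 𝒮 (𝒮.pw V M) * sr (cl 𝒮 (𝒮.pw V M))) (cl 𝒮 S * sr (cl 𝒮 S)) =
      hh (cl 𝒮 S * cl 𝒮 (𝒮.pw V M)) (cl 𝒮 S * cl 𝒮 (𝒮.pw V M))
    generalize cl 𝒮 (𝒮.pw V M) = x
    generalize cl 𝒮 S = y
    have e1 : hh (x * sr x) (y * sr y) = hh (x * (sr x * y)) y := by
      rw [hh_adj', sr_sr, mul_assoc]
    rw [e1, mul_comm (sr x) y, ← mul_assoc, hh_adj, sr_sr, mul_comm x y]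
  have h6 : 0 < 𝒮.dim (𝒮.ten S (𝒮.pw V M)) := by
    rw [𝒮.dim_ten, dim_pw]
    have : 0 < 𝒮.dim S := dim_pos_of (A := S) (C := S) (by rw [h2]; exact one_ne_zero)
    positivity
  have h7 := h_self_pos h6
  rw [← h5, ← h4] at h7
  exact dim_pos_of h7

/-- `|O ⊗ Y|² = h (O* O Y) Y`. -/
theorem nrm {Ob : Type u} {𝒮 : Sys Ob} (o y : Qt 𝒮) :
    hh (o * y) (o * y) = hh (sr o * o * y) y := by
  rw [mul_comm o y, hh_adj', mul_comm (y * o) (sr o), ← mul_assoc, mul_assoc, mul_comm y o,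
    ← mul_assoc]

theorem s_LOW (hLOG : S_LOG.{u}) (hSCH : S_SCH.{u}) : S_LOW.{u} := by
  intro Ob 𝒮 T hT V O R hs κ M n β hβ hβ0
  set Y := 𝒮.pw V M with hY
  set y := cl 𝒮 Y with hy
  set o := cl 𝒮 (O κ) with ho
  set w := cl 𝒮 (𝒮.wq V κ) with hw
  set α : ℕ := 𝒮.h Y Y with hα
  -- the numbers `B n`
  let B : ℕ → ℕ := fun n => 𝒮.h (𝒮.it (O κ) Y n) (𝒮.it (O κ) Y n)
  have hB0 : B 0 = α := rfl
  -- log-convexity
  have hlog : ∀ n, B (n + 1) ^ 2 ≤ B n * B (n + 2) := by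
    intro n
    have h := hLOG 𝒮 (O κ) PUnit.{u + 1} (fun _ => 1) (fun _ => Y) n
    simpa using h
  -- the first step
  have hsplit : ∀ c, hh w c = hh o c + hh (cl 𝒮 (R κ)) c := by
    intro c
    induction c using Quotient.inductionOn with | _ C
    exact (hs κ).split C
  have hB1 : β ≤ (B 1 : ℤ) := by
    -- `f A = dim A * h Y Y - h (ten A Y) Y ≥ 0`
    have hf : ∀ X Z : Ob, 𝒮.h (𝒮.ten (𝒮.ten X Z) Y) Y ≤ 𝒮.dim X * 𝒮.dim Z * α := by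
      intro X Z
      have := hSCH 𝒮 Y (𝒮.ten X Z)
      rwa [𝒮.dim_ten] at this
    have e1 : B 1 = 𝒮.h (𝒮.ten (𝒮.ten (𝒮.dual (O κ)) (O κ)) Y) Y := nrm o y
    -- the sum of the four terms
    have e2 : hh (sr w * w * y) y = hh (sr o * o * y) y + hh (sr o * cl 𝒮 (R κ) * y) y +
        (hh (sr (cl 𝒮 (R κ)) * o * y) y + hh (sr (cl 𝒮 (R κ)) * cl 𝒮 (R κ) * y) y) := by
      have g1 : ∀ a b : Qt 𝒮, hh (a * w * b) y = hh (a * o * b) y +
          hh (a * cl 𝒮 (R κ) * b) y := by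
        intro a b
        have g2 : ∀ x : Qt 𝒮, hh (a * x * b) y = hh x (y * sr (a * b)) := by
          intro x
          rw [mul_comm a x, mul_assoc, hh_adj]
        rw [g2, g2, g2, hsplit]
      have g3 : ∀ b : Qt 𝒮, hh (sr w * b) y = hh (sr o * b) y + hh (sr (cl 𝒮 (R κ)) * b) y := by
        intro b
        have g2 : ∀ x : Qt 𝒮, hh (sr x * b) y = hh x (sr (y * sr b)) := by
          intro x
          rw [hh_adj, ← hh_sr (sr x), sr_sr]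
        rw [g2, g2, g2, hsplit]
      rw [g1]
      have g4 : hh (sr w * o * y) y = hh (sr o * o * y) y + hh (sr (cl 𝒮 (R κ)) * o * y) y := by
        rw [mul_assoc, g3, ← mul_assoc, ← mul_assoc]
      have g5 : hh (sr w * cl 𝒮 (R κ) * y) y = hh (sr o * cl 𝒮 (R κ) * y) y +
          hh (sr (cl 𝒮 (R κ)) * cl 𝒮 (R κ) * y) y := by
        rw [mul_assoc, g3, ← mul_assoc, ← mul_assoc]
      rw [g4, g5]
      ring
    have e3 : hh (sr w * w * y) y =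
        𝒮.h (𝒮.pw V (M + (2 * κ + 2))) (𝒮.pw V (M + (2 * κ + 2))) := by
      rw [← nrm]
      have g1 : w = cl 𝒮 (𝒮.pw V κ) * sr (cl 𝒮 (𝒮.pw V κ)) := rfl
      set a := cl 𝒮 (𝒮.pw V κ) with ha
      have g2 : hh (w * y) (w * y) = hh (a * (a * y)) (a * (a * y)) := by
        rw [g1]
        have g3 : ∀ x : Qt 𝒮, hh (sr a * x) (sr a * x) = hh (a * x) (a * x) := by
          intro x
          rw [nrm, sr_sr, nrm, mul_comm a (sr a)]
        have g4 : a * sr a * y = sr a * (a * y) := by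
          rw [mul_comm a (sr a), mul_assoc]
        rw [g4, g3]
      rw [g2]
      have g5 : a * (a * y) = cl 𝒮 (𝒮.pw V (M + (2 * κ + 2))) := by
        apply WithOne.coe_injective
        rw [WithOne.coe_mul, WithOne.coe_mul, ha, hy, hY, cl_pw, cl_pw, cl_pw, ← pow_add,
          ← pow_add]
        congr 1
        ring
      rw [g5]
      rfl
    have h1 := hf (𝒮.dual (O κ)) (R κ)
    have h2 := hf (𝒮.dual (R κ)) (O κ)
    have h3 := hf (𝒮.dual (R κ)) (R κ)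
    rw [𝒮.dim_dual] at h1 h2 h3
    have hd : 𝒮.dim V ^ (2 * (κ + 1)) = 𝒮.dim (O κ) + 𝒮.dim (R κ) := by
      rw [← (hs κ).dim, dim_wq]
    have hd2 : (𝒮.dim V : ℤ) ^ (4 * (κ + 1)) = ((𝒮.dim (O κ) : ℤ) + 𝒮.dim (R κ)) ^ 2 := by
      have : 4 * (κ + 1) = 2 * (κ + 1) * 2 := by ring
      rw [this, pow_mul]
      congr 1
      exact_mod_cast hd
    rw [e3] at e2
    have e4 : (𝒮.h (𝒮.pw V (M + (2 * κ + 2))) (𝒮.pw V (M + (2 * κ + 2))) : ℤ) =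
        B 1 + 𝒮.h (𝒮.ten (𝒮.ten (𝒮.dual (O κ)) (R κ)) Y) Y +
        (𝒮.h (𝒮.ten (𝒮.ten (𝒮.dual (R κ)) (O κ)) Y) Y +
          𝒮.h (𝒮.ten (𝒮.ten (𝒮.dual (R κ)) (R κ)) Y) Y) := by
      rw [e1]
      exact_mod_cast e2
    rw [hβ, hd2, e4]
    have h1' : (𝒮.h (𝒮.ten (𝒮.ten (𝒮.dual (O κ)) (R κ)) Y) Y : ℤ) ≤
        𝒮.dim (O κ) * 𝒮.dim (R κ) * α := by exact_mod_cast h1
    have h2' : (𝒮.h (𝒮.ten (𝒮.ten (𝒮.dual (R κ)) (O κ)) Y) Y : ℤ) ≤
        𝒮.dim (R κ) * 𝒮.dim (O κ) * α := by exact_mod_cast h2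
    have h3' : (𝒮.h (𝒮.ten (𝒮.ten (𝒮.dual (R κ)) (R κ)) Y) Y : ℤ) ≤
        𝒮.dim (R κ) * 𝒮.dim (R κ) * α := by exact_mod_cast h3
    nlinarith
  -- log-convexity, iterated
  have hiter : ∀ n, B 1 ^ (n + 1) ≤ B 0 ^ n * B (n + 1) := by
    -- `B 1 * B n ≤ B 0 * B (n + 1)`
    have hstep : ∀ n, B 1 * B n ≤ B 0 * B (n + 1) := by
      intro n
      induction n with
      | zero => rw [mul_comm]
      | succ n ih =>
        rcases Nat.eq_zero_or_pos (B (n + 1)) with h | h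
        · rw [h, mul_zero]
          exact Nat.zero_le _
        · have h1 := hlog n
          rcases Nat.eq_zero_or_pos (B n) with h0 | h0
          · rw [h0, zero_mul] at h1
            have : 0 < B (n + 1) ^ 2 := by positivity
            omega
          · have h2 : B 1 * B (n + 1) * B n ≤ B 0 * B (n + 1 + 1) * B n := by
              calc B 1 * B (n + 1) * B n = (B 1 * B n) * B (n + 1) := by ring
                _ ≤ (B 0 * B (n + 1)) * B (n + 1) := Nat.mul_le_mul_right _ ih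
                _ = B 0 * (B (n + 1) ^ 2) := by ring
                _ ≤ B 0 * (B n * B (n + 2)) := Nat.mul_le_mul_left _ h1
                _ = B 0 * B (n + 1 + 1) * B n := by ring
            exact Nat.le_of_mul_le_mul_right h2 h0
    intro n
    induction n with
    | zero => simp
    | succ n ih =>
      calc B 1 ^ (n + 1 + 1) = B 1 ^ (n + 1) * B 1 := by rw [pow_succ]
        _ ≤ B 0 ^ n * B (n + 1) * B 1 := Nat.mul_le_mul_right _ ih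
        _ = B 0 ^ n * (B 1 * B (n + 1)) := by ring
        _ ≤ B 0 ^ n * (B 0 * B (n + 1 + 1)) := Nat.mul_le_mul_left _ (hstep (n + 1))
        _ = B 0 ^ (n + 1) * B (n + 1 + 1) := by ring
  -- the last step
  have hlast : B (n + 1) ≤ 𝒮.dim (O M) * 𝒮.h (𝒮.pw (O κ) n) (𝒮.pw (O κ) n) := by
    have hTpw : ∀ n, T (𝒮.pw (O κ) n) := by
      intro n
      induction n with
      | zero => exact (hs κ).mem
      | succ n ih => exact hT.ten (hs κ).mem ih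
    set P := 𝒮.pw (O κ) n with hP
    have e1 : B (n + 1) = hh (cl 𝒮 P * y) (cl 𝒮 P * y) := by
      have : cl 𝒮 (𝒮.it (O κ) Y (n + 1)) = cl 𝒮 P * y := by
        apply WithOne.coe_injective
        rw [WithOne.coe_mul, cl_it, hP, cl_pw (O κ) n]
      rw [← this]
      rfl
    have e2 : B (n + 1) = 𝒮.h (𝒮.wq V M) (𝒮.ten (𝒮.dual P) P) := by
      rw [e1, nrm]
      change _ = hh (y * sr y) (sr (cl 𝒮 P) * cl 𝒮 P)
      rw [hh_symm (y * sr y), hh_adj]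
    have hTX : T (𝒮.ten (𝒮.dual P) P) := hT.ten (hT.dual (hTpw n)) (hTpw n)
    rw [e2, ← hom_part hT (hs M) hTX]
    have e3 : 𝒮.h (O M) (𝒮.ten (𝒮.dual P) P) = 𝒮.h (𝒮.ten (O M) P) P := by
      change hh (cl 𝒮 (O M)) (sr (cl 𝒮 P) * cl 𝒮 P) = hh (cl 𝒮 (O M) * cl 𝒮 P) (cl 𝒮 P)
      rw [hh_adj, mul_comm (sr (cl 𝒮 P))]
    rw [e3]
    exact hSCH 𝒮 P (O M)
  have hfin : B 1 ^ (n + 1) ≤ α ^ n * 𝒮.dim (O M) * 𝒮.h (𝒮.pw (O κ) n) (𝒮.pw (O κ) n) := by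
    calc B 1 ^ (n + 1) ≤ B 0 ^ n * B (n + 1) := hiter n
      _ ≤ B 0 ^ n * (𝒮.dim (O M) * 𝒮.h (𝒮.pw (O κ) n) (𝒮.pw (O κ) n)) :=
          Nat.mul_le_mul_left _ hlast
      _ = _ := by rw [hB0, mul_assoc]
  calc β ^ (n + 1) ≤ (B 1 : ℤ) ^ (n + 1) := pow_le_pow_left₀ hβ0 hB1 _
    _ ≤ _ := by exact_mod_cast hfin

theorem s_FIN (hSCH : S_SCH.{u}) (hSUM : S_SUM.{u}) : S_FIN.{u} := by
  intro Ob 𝒮 T hT V O R hs P r hP hgen hbd n
  obtain ⟨D⟩ := 𝒮.dec (O n)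
  have hTS : ∀ c, T (D.S c) := fun c => hT.sub (hs n).mem (Dec.simple D c) (by
    rw [Dec.self]
    exact (D.m_pos c).ne')
  have hm : ∀ c, D.m c = 𝒮.h (D.S c) (𝒮.wq V n) := by
    intro c
    rw [𝒮.h_symm, ← hom_part hT (hs n) (hTS c), 𝒮.h_symm, Dec.self]
  have hsum := hSUM 𝒮 P r hP hbd (ULift.{u} D.C) (fun c => D.S c.down)
    (fun c => Dec.simple D c.down) (fun c c' h => by
      rw [D.ortho, if_neg]
      intro h'
      exact h (ULift.ext _ _ h')) (fun c => by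
      refine hgen n (D.S c.down) (Dec.simple D c.down) (hTS _) ?_
      rw [← hm]
      exact (D.m_pos _).ne')
  have hsum' : ∑ c, 𝒮.dim (D.S c) ^ 2 ≤ r := by
    refine le_trans (le_of_eq ?_) hsum
    exact (Equiv.sum_comp (Equiv.ulift.{u} (α := D.C)) (fun c => 𝒮.dim (D.S c) ^ 2)).symm
  rw [D.dim_eq]
  have hle : ∀ c, D.m c * 𝒮.dim (D.S c) ≤ 𝒮.dim (D.S c) ^ 2 * 𝒮.h (𝒮.pw V n) (𝒮.pw V n) := by
    intro c
    have e1 : D.m c = 𝒮.h (𝒮.ten (D.S c) (𝒮.pw V n)) (𝒮.pw V n) := by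
      rw [hm, 𝒮.adj]
      rfl
    rw [e1]
    calc _ ≤ 𝒮.dim (D.S c) * 𝒮.h (𝒮.pw V n) (𝒮.pw V n) * 𝒮.dim (D.S c) :=
          Nat.mul_le_mul_right _ (hSCH 𝒮 (𝒮.pw V n) (D.S c))
      _ = _ := by ring
  calc ∑ c, D.m c * 𝒮.dim (D.S c) ≤ ∑ c, 𝒮.dim (D.S c) ^ 2 * 𝒮.h (𝒮.pw V n) (𝒮.pw V n) :=
        Finset.sum_le_sum fun c _ => hle c
    _ = (∑ c, 𝒮.dim (D.S c) ^ 2) * 𝒮.h (𝒮.pw V n) (𝒮.pw V n) := by rw [Finset.sum_mul]
    _ ≤ _ := Nat.mul_le_mul_right _ hsum'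

end Pool.Agent.L7h32.RL
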